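import Pool.Agent.helper59.FI4.SpecI

set_option autoImplicit false

namespace Pool.Agent.FI4I

open Pool.Agent.helper58.DC Pool.Agent.DI Pool.Agent.GR Pool.Agent.OB Pool.Agent.DR Pool.Agent.FI Pool.Agent.FI3 Pool.Agent.FI4

theorem BKN_nz {G : Type} [Group G] (Q : Subgroup G) : nz Q ≤ nz (cz Q) := by
  intro g hg
  rw [Subgroup.mem_normalizer_iff]
  intro x
  constructor
  · intro hx
    exact cz_conj hg hx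
  · intro hx
    have h1 := cz_conj ((nz Q).inv_mem hg) hx
    have h2 : g⁻¹ * (g * x * g⁻¹) * g⁻¹⁻¹ = x := by group
    rwa [h2] at h1

theorem BKN (hCFA : CFA_stmt) (hFOV3 : FOV3_stmt) (hCON : CON_stmt) (hFEQ : FEQ_stmt)
    (hFSI : FSI_stmt) : BKN_stmt := by
  intro p M hS G _ _ D x θ χ rt Q N hm φ hφ
  obtain ⟨ψ, hψ, e, he, hov⟩ :=
    (hCFA G (cz Q) N hm.cle (hm.nle.trans (BKN_nz Q))).1 φ hφ.1
  have h1 : SB M N φ ψ :=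
    (hFOV3 p M hS G Q N N hm.pg hm.le hm.cle hm.nle le_rfl φ hφ.1 ψ hψ e he hov).1
  have hψN : ∀ x, x ∉ N → ψ x = 0 := fun x hx => hψ.1 x fun h => hx (hm.cle h)
  have h2 : Induces M ψ χ :=
    ((hFSI p M hS G N N φ ψ).2 hφ.1.1 hψN h1 χ).1 hφ.2
  obtain ⟨h, hQD, hSB⟩ := hCON p M hS G D x θ χ rt Q hm.pg ψ hψ h2
  have hinv : cjS h⁻¹ (cjS h Q) = Q := by
    have a := (hFEQ G M h⁻¹ h Q Q Q θ ψ χ).1.1
    have b := (hFEQ G M h⁻¹ h Q Q Q θ ψ χ).1.2.2.1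
    rw [a, inv_mul_cancel, b]
  have hinvF : cjF h⁻¹ (cjF h ψ) = ψ := by
    have a := (hFEQ G M h⁻¹ h Q Q Q θ ψ χ).1.2.1
    have b := (hFEQ G M h⁻¹ h Q Q Q θ ψ χ).1.2.2.2
    rw [a, inv_mul_cancel, b]
  have hle : Q ≤ cjS h⁻¹ D := by
    have a := ((hFEQ G M h⁻¹ h (cjS h Q) D Q θ ψ χ).2.1.2.2.1).2 hQD
    rwa [hinv] at a
  have hczle : cz (cjS h⁻¹ D) ≤ cz Q := Subgroup.centralizer_le hle
  have hθ₁ : cjF h⁻¹ θ ∈ IrrOn (cz (cjS h⁻¹ D)) := by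
    have a := ((hFEQ G M h⁻¹ h D D (cz D) θ θ χ).2.2.2.1).1 rt.th
    have b := (hFEQ G M h⁻¹ h D D (cz D) θ θ χ).2.1.1
    rwa [← b] at a
  have hSB1 : SB M (cz Q) (cjF h⁻¹ θ) ψ := by
    have a := ((hFEQ G M h⁻¹ h Q Q (cz (cjS h Q)) θ (cjF h ψ) χ).2.2.2.2.1).1 hSB
    have b := (hFEQ G M h⁻¹ h (cjS h Q) Q Q θ ψ χ).2.1.1
    rw [← b, hinv, hinvF] at a
    exact a
  have hSB2 : SB M N (cjF h⁻¹ θ) ψ :=
    (hFSI p M hS G (cz Q) N (cjF h⁻¹ θ) ψ).1 hm.cle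
      (fun x hx => hθ₁.1 x fun hh => hx (hczle hh)) hψ.1 hSB1
  refine ⟨h⁻¹, hle, cjF h⁻¹ θ, hθ₁, hSB2.trans h1.symm, ?_⟩
  exact (((hFEQ G M h⁻¹ h Q Q Q θ θ χ).2.2.2.2.2.1 rt.chi).2).2 rt.ind

end Pool.Agent.FI4I
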